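import Mathlib

/-!
# The ordered monomials in a Weyl algebra (project FA of helper37, package WEYL)
-/

set_option autoImplicit false

open MvPolynomial

namespace Pool.Agent.P8H61.FA

/-- the degree of an exponent vector -/
def dg {σ : Type} (s : σ →₀ ℕ) : ℕ := s.sum fun _ e => e

lemma dg_add {σ : Type} (s t : σ →₀ ℕ) : dg (s + t) = dg s + dg t := by
  classical
  exact Finsupp.sum_add_index' (fun _ => rfl) (fun _ _ _ => rfl)

lemma dg_single {σ : Type} (i : σ) : dg (Finsupp.single i 1) = 1 := by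
  unfold dg
  rw [Finsupp.sum_single_index rfl]

lemma dg_zero {σ : Type} : dg (0 : σ →₀ ℕ) = 0 := by
  unfold dg
  rw [Finsupp.sum_zero_index]

lemma sub_single {σ : Type} (s : σ →₀ ℕ) (i : σ) (h : s i ≠ 0) :
    (s - Finsupp.single i 1) + Finsupp.single i 1 = s := by
  classical
  ext j
  simp only [Finsupp.coe_add, Finsupp.coe_tsub, Pi.add_apply, Pi.sub_apply]
  by_cases hj : i = j
  · subst hj
    rw [Finsupp.single_eq_same]
    omega
  · rw [Finsupp.single_eq_of_ne (Ne.symm hj)]
    omega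

/-! ## the filtration -/

/-- polynomials whose monomials have degree less than `n` -/
def Lo (σ K : Type) [Field K] (n : ℕ) : Submodule K (MvPolynomial σ K) where
  carrier := {p | ∀ s, n ≤ dg s → coeff s p = 0}
  zero_mem' := fun s _ => by simp
  add_mem' := fun {a b} ha hb s hs => by rw [coeff_add, ha s hs, hb s hs, add_zero]
  smul_mem' := fun c a ha s hs => by rw [coeff_smul, ha s hs, smul_zero]

lemma mem_Lo {σ K : Type} [Field K] {n : ℕ} {p : MvPolynomial σ K} :
    p ∈ Lo σ K n ↔ ∀ s, n ≤ dg s → coeff s p = 0 := Iff.rfl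

lemma Lo_mono {σ K : Type} [Field K] {n n' : ℕ} (h : n ≤ n') {p : MvPolynomial σ K}
    (hp : p ∈ Lo σ K n) : p ∈ Lo σ K n' := fun s hs => hp s (h.trans hs)

lemma Lo_zero {σ K : Type} [Field K] {p : MvPolynomial σ K} (hp : p ∈ Lo σ K 0) : p = 0 := by
  ext s
  rw [hp s (Nat.zero_le _), coeff_zero]

lemma Lo_mon {σ K : Type} [Field K] {n : ℕ} {p : MvPolynomial σ K} (hp : p ∈ Lo σ K n)
    (s : σ →₀ ℕ) (c : K) : monomial s c * p ∈ Lo σ K (dg s + n) := by
  classical
  intro t ht
  rw [coeff_monomial_mul']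
  split_ifs with h
  · have e : dg t = dg (t - s) + dg s := by rw [← dg_add, tsub_add_cancel_of_le h]
    rw [hp (t - s) (by omega), mul_zero]
  · rfl

lemma Lo_X {σ K : Type} [Field K] {n : ℕ} {p : MvPolynomial σ K} (hp : p ∈ Lo σ K n)
    (i : σ) : X i * p ∈ Lo σ K (n + 1) := by
  have h := Lo_mon hp (Finsupp.single i 1) 1
  rw [dg_single, add_comm] at h
  exact h

lemma Lo_pd {σ K : Type} [Field K] {n : ℕ} {p : MvPolynomial σ K} (hp : p ∈ Lo σ K (n + 1))
    (i : σ) : pderiv i p ∈ Lo σ K n := by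
  intro s hs
  rw [coeff_pderiv, hp, zero_mul]
  rw [dg_add, dg_single]
  omega

lemma Lo_deg {σ K : Type} [Field K] (p : MvPolynomial σ K) : p ∈ Lo σ K (p.totalDegree + 1) := by
  intro s hs
  by_contra h
  have := le_totalDegree (mem_support_iff.2 h)
  unfold dg at hs
  omega

/-- polynomials with integral coefficients -/
noncomputable def ZZ (σ K : Type) [Field K] : Subring (MvPolynomial σ K) :=
  (MvPolynomial.map (σ := σ) (Int.castRingHom K)).range

lemma ZZ_mon {σ K : Type} [Field K] (s : σ →₀ ℕ) : monomial s (1 : K) ∈ ZZ σ K :=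
  ⟨monomial s 1, by rw [map_monomial, map_one]⟩

lemma ZZ_X {σ K : Type} [Field K] (i : σ) : (X i : MvPolynomial σ K) ∈ ZZ σ K :=
  ⟨X i, by rw [map_X]⟩

lemma ZZ_pd {σ K : Type} [Field K] (i : σ) {p : MvPolynomial σ K} (hp : p ∈ ZZ σ K) :
    pderiv i p ∈ ZZ σ K := by
  obtain ⟨q, rfl⟩ := hp
  exact ⟨pderiv i q, by rw [pderiv_map]⟩

lemma ZZ_coeff {σ K : Type} [Field K] {p : MvPolynomial σ K} (hp : p ∈ ZZ σ K) (s : σ →₀ ℕ)
    (A : Subring K) : coeff s p ∈ A := by
  obtain ⟨q, rfl⟩ := hp
  rw [coeff_map]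
  exact intCast_mem A _

/-! ## the ordering map -/

section

variable {K R : Type} [Field K] [Ring R] [Algebra K R] {m : ℕ}

set_option linter.deprecated false in
lemma exists_psi (x y : Fin m → R) (hx : ∀ i j, x i * x j = x j * x i)
    (hy : ∀ i j, y i * y j = y j * y i) :
    ∃ Psi : MvPolynomial (Fin m ⊕ Fin m) K →ₗ[K] R, Psi 1 = 1 ∧
      (∀ i p, Psi (X (Sum.inl i) * p) = x i * Psi p) ∧
      (∀ i p, Psi (X (Sum.inr i) * p) = Psi p * y i) := by
  classical
  obtain ⟨g, hg⟩ : ∃ g : Fin m ⊕ Fin m → Module.End K R, g = Sum.elim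
    (fun i => LinearMap.mulLeft K (x i)) (fun i => LinearMap.mulRight K (y i)) := ⟨_, rfl⟩
  have hcomm : ∀ a ∈ Set.range g, ∀ b ∈ Set.range g, a * b = b * a := by
    rintro _ ⟨i, rfl⟩ _ ⟨j, rfl⟩
    rw [hg]
    rcases i with i | i <;> rcases j with j | j <;> ext r <;>
      simp only [Sum.elim_inl, Sum.elim_inr, Module.End.mul_apply, LinearMap.mulLeft_apply,
        LinearMap.mulRight_apply]
    · rw [← mul_assoc, hx, mul_assoc]
    · rw [mul_assoc]
    · rw [mul_assoc]
    · rw [mul_assoc, hy, mul_assoc]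
  let _ : CommRing (Algebra.adjoin K (Set.range g)) := Algebra.adjoinCommRingOfComm K hcomm
  obtain ⟨G, hG⟩ : ∃ G : Fin m ⊕ Fin m → Algebra.adjoin K (Set.range g),
    ∀ s, ((G s : Algebra.adjoin K (Set.range g)) : Module.End K R) = g s :=
    ⟨fun s => ⟨g s, Algebra.subset_adjoin ⟨s, rfl⟩⟩, fun _ => rfl⟩
  let Φ : MvPolynomial (Fin m ⊕ Fin m) K →ₐ[K] Algebra.adjoin K (Set.range g) :=
    MvPolynomial.aeval G
  let Ψ : MvPolynomial (Fin m ⊕ Fin m) K →ₗ[K] R :=
    (LinearMap.applyₗ (1 : R)).comp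
      (((Algebra.adjoin K (Set.range g)).val.toLinearMap).comp Φ.toLinearMap)
  have hΨ : ∀ p, Ψ p = ((Φ p : Algebra.adjoin K (Set.range g)) : Module.End K R) 1 := fun _ => rfl
  have hX : ∀ s p, Ψ (X s * p) = g s (Ψ p) := by
    intro s p
    rw [hΨ, hΨ, map_mul]
    have h1 : Φ (X s) = G s := MvPolynomial.aeval_X G s
    rw [h1]
    have h2 : ((G s * Φ p : Algebra.adjoin K (Set.range g)) : Module.End K R) =
      (G s : Module.End K R) * (Φ p : Module.End K R) := rfl
    rw [h2, hG]
    rfl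
  refine ⟨Ψ, ?_, fun i p => ?_, fun i p => ?_⟩
  · have h2 : Φ 1 = 1 := map_one Φ
    rw [hΨ, h2]
    rfl
  · rw [hX, hg]
    rfl
  · rw [hX, hg]
    rfl

variable {x y : Fin m → R} (hx : ∀ i j, x i * x j = x j * x i)
    (hy : ∀ i j, y i * y j = y j * y i)
    (hxy : ∀ i j, y i * x j - x j * y i = if i = j then 1 else 0)
    {Psi : MvPolynomial (Fin m ⊕ Fin m) K →ₗ[K] R} (h1 : Psi 1 = 1)
    (hl : ∀ i p, Psi (X (Sum.inl i) * p) = x i * Psi p)
    (hr : ∀ i p, Psi (X (Sum.inr i) * p) = Psi p * y i)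

include hxy hy h1 hl hr in
lemma comm_y (i : Fin m) (p : MvPolynomial (Fin m ⊕ Fin m) K) :
    y i * Psi p = Psi p * y i + Psi (pderiv (Sum.inl i) p) := by
  classical
  induction p using MvPolynomial.induction_on with
  | C a =>
    rw [pderiv_C, map_zero, add_zero, MvPolynomial.C_eq_smul_one, map_smul, h1]
    simp
  | add p q hp hq =>
    simp only [map_add, mul_add, add_mul]
    rw [hp, hq]
    abel
  | mul_X p s hp =>
    rw [mul_comm p (X s)]
    rcases s with j | j
    · rw [hl, pderiv_mul, map_add, hl, pderiv_X]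
      have e : y i * (x j * Psi p) = (y i * x j - x j * y i) * Psi p + x j * (y i * Psi p) := by
        noncomm_ring
      rw [e, hxy, hp]
      by_cases hij : i = j
      · subst hij
        simp only [if_true, one_mul, Pi.single_eq_same]
        noncomm_ring
      · rw [if_neg hij, Pi.single_eq_of_ne (by simpa using Ne.symm hij)]
        simp only [zero_mul, map_zero]
        noncomm_ring
    · rw [hr, pderiv_mul, map_add, hr, pderiv_X,
        Pi.single_eq_of_ne (by simp), zero_mul, map_zero]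
      rw [← mul_assoc, hp, add_mul, mul_assoc, hy, mul_assoc]
      abel

include hxy hx h1 hl hr in
lemma comm_x (i : Fin m) (p : MvPolynomial (Fin m ⊕ Fin m) K) :
    Psi p * x i = x i * Psi p + Psi (pderiv (Sum.inr i) p) := by
  classical
  induction p using MvPolynomial.induction_on with
  | C a =>
    rw [pderiv_C, map_zero, add_zero, MvPolynomial.C_eq_smul_one, map_smul, h1]
    simp
  | add p q hp hq =>
    simp only [map_add, mul_add, add_mul]
    rw [hp, hq]
    abel
  | mul_X p s hp =>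
    rw [mul_comm p (X s)]
    rcases s with j | j
    · rw [hl, pderiv_mul, map_add, hl, pderiv_X,
        Pi.single_eq_of_ne (by simp), zero_mul, map_zero]
      rw [mul_assoc, hp, mul_add, ← mul_assoc, hx, mul_assoc]
      abel
    · rw [hr, pderiv_mul, map_add, hr, pderiv_X]
      have e : Psi p * y j * x i = Psi p * (y j * x i - x i * y j) + Psi p * x i * y j := by
        noncomm_ring
      rw [e, hxy, hp]
      by_cases hij : j = i
      · subst hij
        simp only [if_true, one_mul, Pi.single_eq_same]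
        noncomm_ring
      · rw [if_neg hij, Pi.single_eq_of_ne (by simpa using hij)]
        simp only [zero_mul, mul_zero, map_zero]
        noncomm_ring

include hxy hx hy h1 hl hr in
lemma psi_inj [CharZero K] [Nontrivial R] : Function.Injective Psi := by
  classical
  rw [injective_iff_map_eq_zero]
  have main : ∀ (n : ℕ) (p : MvPolynomial (Fin m ⊕ Fin m) K), p ∈ Lo _ K n → Psi p = 0 → p = 0 := by
    intro n
    induction n with
    | zero => exact fun p hp _ => Lo_zero hp
    | succ n ih =>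
      intro p hp h0
      have hd : ∀ s, pderiv s p = 0 := by
        intro s
        rcases s with i | i
        · refine ih _ (Lo_pd hp _) ?_
          have h := comm_y hy hxy h1 hl hr i p
          rw [h0] at h
          simpa using h.symm
        · refine ih _ (Lo_pd hp _) ?_
          have h := comm_x hx hxy h1 hl hr i p
          rw [h0] at h
          simpa using h.symm
      have hc : ∀ s, s ≠ 0 → coeff s p = 0 := by
        intro s hs
        obtain ⟨i, hi⟩ : ∃ i, s i ≠ 0 := by
          by_contra hcon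
          push Not at hcon
          exact hs (Finsupp.ext hcon)
        have h := congrArg (coeff (s - Finsupp.single i 1)) (hd i)
        rw [coeff_pderiv, sub_single s i hi, coeff_zero] at h
        rcases mul_eq_zero.1 h with h | h
        · exact h
        · exfalso
          have h5 : ∀ k : ℕ, (k : K) + 1 ≠ 0 := fun k => by exact_mod_cast Nat.succ_ne_zero k
          exact h5 _ h
      have hpC : p = C (coeff 0 p) := by
        ext s
        rw [coeff_C]
        split_ifs with h
        · rw [← h]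
        · exact hc s (Ne.symm h)
      rw [hpC, MvPolynomial.C_eq_smul_one, map_smul, h1] at h0
      rcases smul_eq_zero.1 h0 with h | h
      · rw [hpC, h, C_0]
      · exact absurd h one_ne_zero
  intro p hp
  exact main _ p (Lo_deg p) hp

include hxy hy h1 hl hr in
lemma psi_surj (htop : Algebra.adjoin K (Set.range x ∪ Set.range y) = ⊤) :
    Function.Surjective Psi := by
  have key : ∀ r ∈ Algebra.adjoin K (Set.range x ∪ Set.range y), ∀ p, ∃ q, Psi q = r * Psi p := by
    intro r hr'
    induction hr' using Algebra.adjoin_induction with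
    | mem r hr' =>
      intro p
      rcases hr' with ⟨i, rfl⟩ | ⟨i, rfl⟩
      · exact ⟨_, hl i p⟩
      · refine ⟨X (Sum.inr i) * p + pderiv (Sum.inl i) p, ?_⟩
        rw [map_add, hr, comm_y hy hxy h1 hl hr]
    | algebraMap a =>
      intro p
      exact ⟨a • p, by rw [map_smul, Algebra.smul_def]⟩
    | add a b _ _ ha hb =>
      intro p
      obtain ⟨q, hq⟩ := ha p
      obtain ⟨q', hq'⟩ := hb p
      exact ⟨q + q', by rw [map_add, hq, hq', add_mul]⟩
    | mul a b _ _ ha hb =>
      intro p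
      obtain ⟨q, hq⟩ := hb p
      obtain ⟨q', hq'⟩ := ha q
      exact ⟨q', by rw [hq', hq, mul_assoc]⟩
  intro r
  obtain ⟨q, hq⟩ := key r (by rw [htop]; trivial) 1
  exact ⟨q, by rw [hq, h1, mul_one]⟩

include hxy hy h1 hl hr in
lemma mul_mon (N : ℕ) : ∀ (s : Fin m ⊕ Fin m →₀ ℕ), dg s = N → ∀ (n : ℕ)
    (q : MvPolynomial (Fin m ⊕ Fin m) K), q ∈ Lo _ K (n + 1) →
    ∃ r, Psi (monomial s 1) * Psi q = Psi (monomial s 1 * q + r) ∧ r ∈ Lo _ K (dg s + n) ∧
      (q ∈ ZZ _ K → r ∈ ZZ _ K) := by
  classical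
  induction N with
  | zero =>
    intro s hs n q hq
    have hs0 : s = 0 := by
      ext i
      by_contra h
      have h2 := sub_single s i (by simpa using h)
      rw [← h2, dg_add, dg_single] at hs
      omega
    subst hs0
    refine ⟨0, ?_, Submodule.zero_mem _, fun _ => zero_mem _⟩
    have e : (monomial (0 : Fin m ⊕ Fin m →₀ ℕ)) (1 : K) = 1 := rfl
    rw [e, h1, one_mul, one_mul, add_zero]
  | succ N ih =>
    intro s hs n q hq
    obtain ⟨i, hi⟩ : ∃ i, s i ≠ 0 := by
      by_contra hcon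
      push Not at hcon
      have : s = 0 := Finsupp.ext hcon
      rw [this, dg_zero] at hs
      omega
    obtain ⟨s', hs'⟩ : ∃ s', s' = s - Finsupp.single i 1 := ⟨_, rfl⟩
    have hss : s' + Finsupp.single i 1 = s := by rw [hs']; exact sub_single s i hi
    have hdg : dg s = dg s' + 1 := by rw [← hss, dg_add, dg_single]
    have hN : dg s' = N := by omega
    have hmon : monomial s (1 : K) = X i * monomial s' 1 := by
      rw [X, monomial_mul, one_mul, add_comm, hss]
    rw [hmon]
    rcases i with j | j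
    · obtain ⟨r, hr1, hr2, hr3⟩ := ih s' hN n q hq
      refine ⟨X (Sum.inl j) * r, ?_, ?_, fun hz => mul_mem (ZZ_X _) (hr3 hz)⟩
      · rw [hl, mul_assoc, hr1, ← hl, mul_add, mul_assoc]
      · have := Lo_X hr2 (Sum.inl j)
        exact Lo_mono (by omega) this
    · obtain ⟨r1, hr1, hr2, hr3⟩ := ih s' hN (n + 1) (X (Sum.inr j) * q) (Lo_X hq _)
      have hpd : pderiv (Sum.inl j) q ∈ Lo _ K n := Lo_pd hq _
      obtain ⟨r2, hr4, hr5, hr6⟩ := ih s' hN n (pderiv (Sum.inl j) q) (Lo_mono (by omega) hpd)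
      refine ⟨r1 + (monomial s' 1 * pderiv (Sum.inl j) q + r2), ?_, ?_, fun hz => ?_⟩
      · rw [hr, mul_assoc, comm_y hy hxy h1 hl hr, mul_add, ← hr, hr1, hr4, ← map_add]
        congr 1
        ring
      · refine Submodule.add_mem _ (Lo_mono (by omega) hr2) (Submodule.add_mem _ ?_ ?_)
        · exact Lo_mono (by omega) (Lo_mon hpd s' 1)
        · exact Lo_mono (by omega) hr5
      · exact add_mem (hr3 (mul_mem (ZZ_X _) hz)) (add_mem (mul_mem (ZZ_mon _) (ZZ_pd _ hz))
          (hr6 (ZZ_pd _ hz)))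

include hxy hy h1 hl hr in
lemma mul_gen (n k : ℕ) (p q : MvPolynomial (Fin m ⊕ Fin m) K) (hp : p ∈ Lo _ K (n + 1))
    (hq : q ∈ Lo _ K (k + 1)) :
    ∃ r, Psi p * Psi q = Psi (p * q + r) ∧ r ∈ Lo _ K (n + k) := by
  classical
  have h := fun s : Fin m ⊕ Fin m →₀ ℕ => mul_mon hy hxy h1 hl hr (dg s) s rfl k q hq
  choose r hr1 hr2 _ using h
  refine ⟨∑ s ∈ p.support, coeff s p • r s, ?_, ?_⟩
  · have e1 : p = ∑ s ∈ p.support, coeff s p • monomial s (1 : K) := by
      conv_lhs => rw [p.as_sum]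
      refine Finset.sum_congr rfl fun s _ => ?_
      rw [smul_monomial, smul_eq_mul, mul_one]
    have e2 : Psi p * Psi q = ∑ s ∈ p.support, coeff s p • (Psi (monomial s 1) * Psi q) := by
      conv_lhs => rw [e1]
      rw [map_sum, Finset.sum_mul]
      refine Finset.sum_congr rfl fun s _ => ?_
      rw [map_smul, smul_mul_assoc]
    have e3 : p * q + ∑ s ∈ p.support, coeff s p • r s =
        ∑ s ∈ p.support, coeff s p • (monomial s 1 * q + r s) := by
      conv_lhs => rw [e1]
      rw [Finset.sum_mul, ← e1, ← Finset.sum_add_distrib]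
      refine Finset.sum_congr rfl fun s _ => ?_
      rw [smul_add, smul_mul_assoc]
    rw [e2, e3, map_sum]
    refine Finset.sum_congr rfl fun s _ => ?_
    rw [map_smul, hr1]
  · refine Submodule.sum_mem _ fun s hs => Submodule.smul_mem _ _ ?_
    refine Lo_mono ?_ (hr2 s)
    by_contra hcon
    exact (mem_support_iff.1 hs) (hp s (by omega))

end

/-! ## growth -/

lemma thin_fun {σ : Type} [Fintype σ] (x : ℝ) (hx0 : 0 < x) (hx1 : x < 1) :
    Summable fun s : σ →₀ ℕ => x ^ dg s := by
  classical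
  refine summable_of_sum_le (c := ((1 - x)⁻¹) ^ Fintype.card σ) (fun s => by positivity) ?_
  intro u
  obtain ⟨N, hN⟩ : ∃ N : ℕ, ∀ s ∈ u, ∀ i, s i < N := by
    refine ⟨u.sup (fun s => dg s) + 1, fun s hs i => ?_⟩
    have h1 : dg s ≤ u.sup (fun s => dg s) := Finset.le_sup (f := fun s : σ →₀ ℕ => dg s) hs
    have h2 : s i ≤ dg s := by
      unfold dg
      rw [Finsupp.sum_fintype _ _ (fun _ => rfl)]
      exact Finset.single_le_sum (f := fun i => s i) (fun _ _ => Nat.zero_le _) (Finset.mem_univ i)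
    omega
  have e1 : ∑ s ∈ u, x ^ dg s ≤ ∑ f ∈ Fintype.piFinset (fun _ : σ => Finset.range N),
      ∏ i, x ^ f i := by
    have e2 : ∑ s ∈ u, x ^ dg s = ∑ f ∈ u.image (fun s : σ →₀ ℕ => (s : σ → ℕ)), ∏ i, x ^ f i := by
      rw [Finset.sum_image (fun a _ b _ h => DFunLike.coe_injective h)]
      refine Finset.sum_congr rfl fun s _ => ?_
      unfold dg
      rw [Finsupp.sum_fintype _ _ (fun _ => rfl), Finset.prod_pow_eq_pow_sum]
    rw [e2]
    refine Finset.sum_le_sum_of_subset_of_nonneg ?_ fun f _ _ => by positivity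
    intro f hf
    obtain ⟨s, hs, rfl⟩ := Finset.mem_image.1 hf
    rw [Fintype.mem_piFinset]
    exact fun i => Finset.mem_range.2 (hN s hs i)
  refine e1.trans ?_
  rw [← Finset.prod_univ_sum (fun _ : σ => Finset.range N) (fun _ k => x ^ k), Finset.prod_const,
    Finset.card_univ]
  refine pow_le_pow_left₀ (Finset.sum_nonneg fun _ _ => by positivity) ?_ _
  have h := (summable_geometric_of_lt_one hx0.le hx1).sum_le_tsum (Finset.range N)
    (fun _ _ => by positivity)
  rwa [tsum_geometric_of_lt_one hx0.le hx1] at h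

end Pool.Agent.P8H61.FA
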